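import Mathlib
import Pool.Graph.R_seed8.Results.MP_670fc8_lc.CyclicOrder

set_option autoImplicit false

/-! MP_670fc8_lc: the counterexample to both questions is a finitely axiomatized, `ℵ₀`-categorical
theory in a language with a single ternary relation symbol. -/

open FirstOrder FirstOrder.Language

universe u v w

namespace Pool.Agent.Results.MP_670fc8_lc.FinitelyAxiomatized

open Pool.Agent.Results.MP_670fc8_lc.CyclicOrder

/-- the axioms of dense cyclic orders -/
def cycAx : cycL.Theory := {ax1, ax2, ax3, ax4, ax5, ax6}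

theorem cycAx_finite : (cycAx : Set cycL.Sentence).Finite := by
  unfold cycAx
  exact Set.toFinite _

theorem isDCO_ax (N : Type*) [cycL.Structure N] [h : N ⊨ cycAx] :
    IsDCO (C : N → N → N → Prop) where
  cyc := (real1 N).1 (h.realize_of_mem ax1 (by simp [cycAx]))
  asymm := (real2 N).1 (h.realize_of_mem ax2 (by simp [cycAx]))
  trans := (real3 N).1 (h.realize_of_mem ax3 (by simp [cycAx]))
  total := (real4 N).1 (h.realize_of_mem ax4 (by simp [cycAx]))
  dense := (real5 N).1 (h.realize_of_mem ax5 (by simp [cycAx]))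
  nontriv := (real6 N).1 (h.realize_of_mem ax6 (by simp [cycAx]))

theorem ax_of_isDCO {N : Type*} [cycL.Structure N] (q : IsDCO (C : N → N → N → Prop)) :
    N ⊨ cycAx := by
  refine ⟨fun φ hφ => ?_⟩
  simp only [cycAx, Set.mem_insert_iff, Set.mem_singleton_iff] at hφ
  rcases hφ with rfl | rfl | rfl | rfl | rfl | rfl
  · exact (real1 N).2 q.cyc
  · exact (real2 N).2 q.asymm
  · exact (real3 N).2 q.trans
  · exact (real4 N).2 q.total
  · exact (real5 N).2 q.dense
  · exact (real6 N).2 q.nontriv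

/-- dense cyclic orders are infinite -/
theorem infinite_of_dco {N : Type*} {C : N → N → N → Prop} (h : IsDCO C) : Infinite N := by
  obtain ⟨b, -⟩ := h.nontriv
  obtain ⟨o, hb, hd, hm, hC⟩ := exists_order h b
  letI := o
  haveI : NoMaxOrder N := ⟨hm⟩
  haveI : Nonempty N := ⟨b⟩
  exact NoMaxOrder.infinite

/-- Cantor's theorem for dense cyclic orders -/
theorem iso_of_dco {N N' : Type w} [Countable N] [Countable N'] {C : N → N → N → Prop}
    {C' : N' → N' → N' → Prop} (h : IsDCO C) (h' : IsDCO C') :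
    ∃ e : N ≃ N', ∀ x y z, C x y z ↔ C' (e x) (e y) (e z) := by
  classical
  obtain ⟨b, -⟩ := h.nontriv
  obtain ⟨b', -⟩ := h'.nontriv
  obtain ⟨o, hb, hd, hm, hC⟩ := exists_order h b
  obtain ⟨o', hb', hd', hm', hC'⟩ := exists_order h' b'
  letI := o
  letI := o'
  have inst1 : ∀ (M : Type w) (o : LinearOrder M) (b : M), (∀ x, b ≤ x) →
      (∀ x y : M, x < y → ∃ z, x < z ∧ z < y) → (∀ x : M, ∃ y, x < y) →
      DenselyOrdered {x : M // b < x} ∧ NoMinOrder {x : M // b < x} ∧
      NoMaxOrder {x : M // b < x} ∧ Nonempty {x : M // b < x} := by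
    intro M o b hb hd hm
    refine ⟨⟨fun x y hxy => ?_⟩, ⟨fun x => ?_⟩, ⟨fun x => ?_⟩, ?_⟩
    · obtain ⟨z, h1, h2⟩ := hd x.1 y.1 hxy
      exact ⟨⟨z, x.2.trans h1⟩, h1, h2⟩
    · obtain ⟨z, h1, h2⟩ := hd b x.1 x.2
      exact ⟨⟨z, h1⟩, h2⟩
    · obtain ⟨y, hy⟩ := hm x.1
      exact ⟨⟨y, x.2.trans hy⟩, hy⟩
    · obtain ⟨y, hy⟩ := hm b
      exact ⟨⟨y, hy⟩⟩
  obtain ⟨i1, i2, i3, i4⟩ := inst1 N o b hb hd hm
  obtain ⟨j1, j2, j3, j4⟩ := inst1 N' o' b' hb' hd' hm'
  obtain ⟨e0⟩ := Order.iso_of_countable_dense {x : N // b < x} {x : N' // b' < x}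
  let f : N → N' := fun x => if hx : b < x then (e0 ⟨x, hx⟩).1 else b'
  have hf1 : ∀ x (hx : b < x), f x = (e0 ⟨x, hx⟩).1 := fun x hx => dif_pos hx
  have hf2 : ∀ x, ¬ b < x → f x = b' := fun x hx => dif_neg hx
  have hmono : StrictMono f := by
    intro x y hxy
    have hy : b < y := (hb x).trans_lt hxy
    rw [hf1 y hy]
    by_cases hx : b < x
    · rw [hf1 x hx]
      exact e0.strictMono (show (⟨x, hx⟩ : {x : N // b < x}) < ⟨y, hy⟩ from hxy)
    · rw [hf2 x hx]
      exact (e0 ⟨y, hy⟩).2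
  have hsurj : Function.Surjective f := by
    intro y
    by_cases hy : b' < y
    · refine ⟨(e0.symm ⟨y, hy⟩).1, ?_⟩
      rw [hf1 _ (e0.symm ⟨y, hy⟩).2]
      simp
    · refine ⟨b, ?_⟩
      rw [hf2 b (lt_irrefl b)]
      exact le_antisymm (hb' y) (not_lt.1 hy)
  let e := hmono.orderIsoOfSurjective f hsurj
  refine ⟨e.toEquiv, fun x y z => ?_⟩
  have hlt : ∀ x y : N, e x < e y ↔ x < y := fun x y => e.lt_iff_lt
  rw [hC, hC']
  show cycOf x y z ↔ cycOf (e x) (e y) (e z)
  simp only [cycOf, hlt]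

/-- the structure isomorphism -/
theorem equiv_of_dco {N N' : Type w} [Countable N] [Countable N'] [cycL.Structure N]
    [cycL.Structure N'] (h : IsDCO (C : N → N → N → Prop))
    (h' : IsDCO (C : N' → N' → N' → Prop)) : Nonempty (N ≃[cycL] N') := by
  obtain ⟨e, he⟩ := iso_of_dco h h'
  refine ⟨{ toEquiv := e, map_fun' := fun f => f.elim, map_rel' := ?_ }⟩
  intro n r x
  cases r
  have h1 : x = ![x 0, x 1, x 2] := by
    ext i
    fin_cases i <;> rfl
  have h2 : e ∘ x = ![e (x 0), e (x 1), e (x 2)] := by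
    ext i
    fin_cases i <;> rfl
  have h3 := (he (x 0) (x 1) (x 2)).symm
  unfold C at h3
  rw [← h1, ← h2] at h3
  exact h3

theorem categorical : (Cardinal.aleph0.{w}).Categorical cycAx := by
  intro M N hM hN
  haveI : Countable M := Cardinal.mk_le_aleph0_iff.1 hM.le
  haveI : Countable N := Cardinal.mk_le_aleph0_iff.1 hN.le
  exact equiv_of_dco (isDCO_ax M) (isDCO_ax N)

theorem complete : cycAx.IsComplete := by
  haveI : QCirc ⊨ cycAx := ax_of_isDCO isDCO_QCirc
  refine (categorical.{0}).isComplete _ _ le_rfl ?_ ⟨Theory.ModelType.of cycAx QCirc⟩ ?_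
  · exact Cardinal.lift_le.2 card_cycL
  · intro M
    exact infinite_of_dco (isDCO_ax M)

theorem exists_models (κ : Cardinal.{w}) (hκ : Cardinal.aleph0 ≤ κ) :
    ∃ N : Theory.ModelType.{0, 0, w} cycAx, Cardinal.mk N = κ := by
  haveI : QCirc ⊨ cycAx := ax_of_isDCO isDCO_QCirc
  refine Theory.exists_model_card_eq ⟨Theory.ModelType.of cycAx QCirc, ?_⟩ κ hκ ?_
  · exact inferInstanceAs (Infinite ℚ)
  · refine (Cardinal.lift_le.2 card_cycL).trans ?_
    rw [Cardinal.lift_aleph0]
    exact Cardinal.aleph0_le_lift.2 hκ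

/-- There are a language `L` whose only symbol is one ternary relation symbol and a finite
`L`-theory `T` that is complete, `ℵ₀`-categorical, has models of all infinite cardinalities and no
finite models, such that every model of `T` has low VC-density, is dp-minimal and is not weakly
VC-minimal. -/
theorem result : ∃ (L : FirstOrder.Language.{0, 0}) (T : L.Theory),
    (L.IsRelational ∧ (∀ n, n ≠ 3 → IsEmpty (L.Relations n)) ∧ Nonempty (Unique (L.Relations 3))) ∧
    (T : Set L.Sentence).Finite ∧ T.IsComplete ∧ (Cardinal.aleph0.{w}).Categorical T ∧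
    (∀ κ : Cardinal.{w}, Cardinal.aleph0 ≤ κ →
      ∃ N : Theory.ModelType.{0, 0, w} T, Cardinal.mk N = κ) ∧
    ∀ (N : Type w) [L.Structure N] [N ⊨ T],
      Infinite N ∧ LowVCDensity L N ∧ DpMinimal L N ∧ ¬ WeaklyVCMinimal L N := by
  refine ⟨cycL, cycAx, ⟨fun n => inferInstanceAs (IsEmpty Empty), ?_, ?_⟩, cycAx_finite, complete,
    categorical, exists_models, ?_⟩
  · intro n hn
    refine ⟨fun r => ?_⟩
    cases r
    exact hn rfl
  · exact ⟨⟨⟨CycRel.cyc⟩, fun a => Subsingleton.elim (α := CycRel 3) _ _⟩⟩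
  · intro N _ _
    have h := isDCO_ax N
    exact ⟨infinite_of_dco h, lowVC N h, dpMin N h, not_weaklyVCMinimal h⟩

end Pool.Agent.Results.MP_670fc8_lc.FinitelyAxiomatized
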